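import Mathlib

/-!
One-dimensional lemmas for the radial shooting argument.
-/

namespace Pool.Agent.MP_67db61_an

open Set Filter Topology MeasureTheory

lemma le_of_deriv_nonneg {f f' : ℝ → ℝ} {a b : ℝ} (hab : a ≤ b) (hf : ∀ x, HasDerivAt f (f' x) x)
    (h : ∀ x ∈ Ioo a b, 0 ≤ f' x) : f a ≤ f b := by
  have hc : Continuous f := continuous_iff_continuousAt.2 fun x => (hf x).continuousAt
  refine monotoneOn_of_deriv_nonneg (convex_Icc a b) hc.continuousOn
    (fun x _ => (hf x).differentiableAt.differentiableWithinAt) (fun x hx => ?_)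
    (left_mem_Icc.2 hab) (right_mem_Icc.2 hab) hab
  rw [interior_Icc] at hx
  rw [(hf x).deriv]
  exact h x hx

lemma le_of_deriv_nonpos {f f' : ℝ → ℝ} {a b : ℝ} (hab : a ≤ b) (hf : ∀ x, HasDerivAt f (f' x) x)
    (h : ∀ x ∈ Ioo a b, f' x ≤ 0) : f b ≤ f a := by
  have := le_of_deriv_nonneg (f := fun x => -f x) (f' := fun x => -f' x) hab
    (fun x => (hf x).neg) (fun x hx => neg_nonneg.2 (h x hx))
  simpa using this

/-- A nonnegative decreasing radial supersolution cannot exist. -/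
lemma no_super (k : ℕ) {κ ρ : ℝ} (hκ : 0 < κ) (hρ : 0 < ρ) : ∃ θ : ℝ, 0 < θ ∧
    ∀ (a : ℝ) (D P ψ : ℝ → ℝ), 0 < a → (∀ r, HasDerivAt D (P r) r) →
      (∀ r, HasDerivAt (fun r => r ^ k * P r) (ψ r) r) → P 0 = 0 → D 0 = a →
      (∀ r, 0 ≤ r → 0 ≤ D r) → (∀ r, 0 < r → P r ≤ 0) → a / 2 ≤ D ρ → (∀ r, 0 < r → ψ r ≤ 0) →
      (∀ r, 0 < r → θ * a ≤ D r → ψ r ≤ -(κ * (r ^ k * D r))) → False := by
  set c := κ * ρ ^ (k + 1) / (2 * (k + 1)) with hc
  have hc0 : 0 < c := by positivity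
  set R1 := 1 + (k + 1) ^ 2 / κ with hR1
  have hR11 : 1 ≤ R1 := le_add_of_nonneg_right (by positivity)
  set R := ρ + R1 + R1 ^ (k + 1) * 2 ^ k / c with hR
  have hRρ : ρ ≤ R := by
    have : 0 ≤ R1 ^ (k + 1) * 2 ^ k / c := by positivity
    linarith
  have hRR1 : R1 ≤ R := by
    have : 0 ≤ R1 ^ (k + 1) * 2 ^ k / c := by positivity
    linarith
  have hR0 : 0 < R := by linarith
  refine ⟨min (1 / 2) (c / (R + 1) ^ k), lt_min (by norm_num) (by positivity), ?_⟩
  intro a D P ψ ha hD hΦ hP0 hD0 hnn hP hhalf hψ hψ'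
  have hanti : ∀ x y, 0 ≤ x → x ≤ y → D y ≤ D x := fun x y hx hxy =>
    le_of_deriv_nonpos hxy hD fun z hz => hP z (by linarith [hz.1])
  -- flux bound in terms of the value at the end point
  have hflux : ∀ r, 0 ≤ r → min (1 / 2) (c / (R + 1) ^ k) * a ≤ D r →
      r ^ k * P r ≤ -(κ * D r * r ^ (k + 1) / (k + 1)) := by
    intro r hr hθ
    have h1 := le_of_deriv_nonpos (f := fun x => x ^ k * P x + κ * D r * x ^ (k + 1) / (k + 1))
      (f' := fun x => ψ x + κ * D r * x ^ k) hr (fun x => by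
        refine ((hΦ x).add (((hasDerivAt_pow (k + 1) x).const_mul (κ * D r)).div_const
          ((k : ℝ) + 1))).congr_deriv ?_
        push_cast
        field_simp) (fun x hx => by
        have h2 := hanti x r hx.1.le hx.2.le
        have h3 := hψ' x hx.1 (hθ.trans h2)
        have h4 : 0 ≤ x ^ k := pow_nonneg hx.1.le k
        nlinarith [mul_le_mul_of_nonneg_left h2 (mul_nonneg hκ.le h4)])
    simp only [hP0, mul_zero, ne_eq, Nat.add_eq_zero_iff, one_ne_zero, and_false,
      not_false_eq_true, zero_pow, zero_div, add_zero] at h1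
    linarith
  have h1 : ρ ^ k * P ρ ≤ -(c * a) := by
    have h2 := hflux ρ hρ.le
      ((mul_le_mul_of_nonneg_right (min_le_left _ _) ha.le).trans (by linarith))
    refine h2.trans (neg_le_neg ?_)
    have e : c * a = κ * (a / 2) * ρ ^ (k + 1) / (k + 1) := by rw [hc]; field_simp
    rw [e]
    gcongr
  have h2 : ∀ r, ρ ≤ r → r ^ k * P r ≤ -(c * a) := fun r hr =>
    (le_of_deriv_nonpos hr hΦ fun x hx => hψ x (by linarith [hx.1])).trans h1
  have h3 : c / (R + 1) ^ k * a ≤ D R := by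
    have h4 := le_of_deriv_nonpos (f := fun x => D x + c / (R + 1) ^ k * a * x)
      (f' := fun x => P x + c / (R + 1) ^ k * a) (show R ≤ R + 1 by linarith)
      (fun x => ((hD x).add ((hasDerivAt_id x).const_mul (c / (R + 1) ^ k * a))).congr_deriv
        (by simp))
      (fun x hx => by
        have h5 := h2 x (by linarith [hx.1])
        have h6 : x ^ k ≤ (R + 1) ^ k := pow_le_pow_left₀ (by linarith [hx.1]) hx.2.le k
        have h7 := hP x (by linarith [hx.1])
        have h8 : (R + 1) ^ k * P x ≤ -(c * a) := by nlinarith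
        have h9 : 0 < (R + 1) ^ k := by positivity
        have : P x + c / (R + 1) ^ k * a = ((R + 1) ^ k * P x + c * a) / (R + 1) ^ k := by
          field_simp
        rw [this]
        exact div_nonpos_of_nonpos_of_nonneg (by linarith) h9.le)
    have h5 := hnn (R + 1) (by linarith)
    linarith
  have h4 : R ^ (k + 1) * D R ≤ R1 ^ (k + 1) * D R1 := by
    refine le_of_deriv_nonpos (f := fun x => x ^ (k + 1) * D x)
      (f' := fun x => (k + 1) * x ^ k * D x + x ^ (k + 1) * P x) hRR1 (fun x => by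
        refine ((hasDerivAt_pow (k + 1) x).mul (hD x)).congr_deriv ?_
        simp) (fun x hx => ?_)
    have hx0 : 0 < x := by linarith [hx.1]
    have h5 := hflux x hx0.le ((mul_le_mul_of_nonneg_right (min_le_right _ _) ha.le).trans
      (h3.trans (hanti x R hx0.le hx.2.le)))
    have h6 := hnn x hx0.le
    have h7 : ((k : ℝ) + 1) ^ 2 ≤ κ * x ^ 2 := by
      have h8 : ((k : ℝ) + 1) ^ 2 / κ ≤ x := by linarith [hx.1]
      rw [div_le_iff₀ hκ] at h8
      have h9 : x ≤ x ^ 2 := by nlinarith [hx.1]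
      nlinarith
    have e : (k + 1) * x ^ k * D x + x ^ (k + 1) * P x
        = (k + 1) * x ^ k * D x + x * (x ^ k * P x) := by ring
    have h8 : x * (x ^ k * P x) ≤ x * -(κ * D x * x ^ (k + 1) / (k + 1)) :=
      mul_le_mul_of_nonneg_left h5 hx0.le
    have e2 : (k + 1) * x ^ k * D x + x * -(κ * D x * x ^ (k + 1) / (k + 1))
        = x ^ k * D x * (((k : ℝ) + 1) ^ 2 - κ * x ^ 2) / (k + 1) := by
      field_simp; ring
    have h9 : x ^ k * D x * (((k : ℝ) + 1) ^ 2 - κ * x ^ 2) / (k + 1) ≤ 0 :=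
      div_nonpos_of_nonpos_of_nonneg
        (mul_nonpos_of_nonneg_of_nonpos (by positivity) (by linarith)) (by positivity)
    linarith
  have h5 : D R1 ≤ a := hD0 ▸ hanti 0 R1 le_rfl (by linarith)
  have h6 : R ^ (k + 1) * (c / (R + 1) ^ k * a) ≤ R1 ^ (k + 1) * a :=
    (mul_le_mul_of_nonneg_left h3 (by positivity)).trans
      (h4.trans (mul_le_mul_of_nonneg_left h5 (by positivity)))
  have h7 : (R + 1) ^ k ≤ (2 * R) ^ k := pow_le_pow_left₀ (by linarith) (by linarith) k
  have h8 : R ^ (k + 1) * (c / (2 * R) ^ k * a) ≤ R ^ (k + 1) * (c / (R + 1) ^ k * a) := by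
    gcongr
  have e : R ^ (k + 1) * (c / (2 * R) ^ k * a) = R * c / 2 ^ k * a := by
    rw [mul_pow]; field_simp; ring
  have h9 : R * c / 2 ^ k ≤ R1 ^ (k + 1) := le_of_mul_le_mul_right (by linarith) ha
  rw [div_le_iff₀ (by positivity), ← le_div_iff₀ hc0] at h9
  linarith

/-- One component of a solution of the truncated radial system. -/
structure Comp (k : ℕ) (a : ℝ) (U P m q : ℝ → ℝ) : Prop where
  dU : ∀ r, HasDerivAt U (P r) r
  dΦ : ∀ r, HasDerivAt (fun r => r ^ k * P r) (r ^ k * (q r * m r)) r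
  cP : Continuous P
  P0 : P 0 = 0
  U0 : U 0 = a
  qmono : ∀ x y, 0 ≤ x → x ≤ y → q x ≤ q y
  m0 : ∀ r, 0 ≤ m r
  mle : ∀ x y, 0 ≤ x → x ≤ y → m y ≤ max 0 (U x)
  meq : ∀ r, 0 ≤ r → 0 ≤ U r → (∀ x, 0 ≤ x → x ≤ r → U r ≤ U x) → m r = U r

variable {k : ℕ} {a : ℝ} {U P m q : ℝ → ℝ}

lemma Comp.cU (h : Comp k a U P m q) : Continuous U :=
  continuous_iff_continuousAt.2 fun x => (h.dU x).continuousAt

lemma Comp.exists_zero (h : Comp k a U P m q) (ha : 0 < a) {r : ℝ} (hr : 0 < r) (hU : U r < 0) :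
    ∃ z, 0 ≤ z ∧ z < r ∧ U z = 0 := by
  obtain ⟨z, hz, h0⟩ := intermediate_value_Icc' hr.le h.cU.continuousOn
    (show (0 : ℝ) ∈ Icc (U r) (U 0) from ⟨hU.le, h.U0 ▸ ha.le⟩)
  refine ⟨z, hz.1, lt_of_le_of_ne hz.2 ?_, h0⟩
  rintro rfl
  linarith

/-- overshooting and undershooting exclude each other -/
lemma Comp.disj (h : Comp k a U P m q) (ha : 0 < a) {r0 r1 : ℝ} (h0 : 0 < r0) (hU : U r0 < 0)
    (h1 : 0 < r1) (hP : 0 < P r1) : False := by
  obtain ⟨z, hz0, hz1, hz⟩ := h.exists_zero ha h0 hU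
  obtain ⟨r2, hr2, hP2⟩ := exists_hasDerivAt_eq_slope U P hz1 h.cU.continuousOn
    (fun x _ => h.dU x)
  have hP2' : P r2 < 0 := by
    rw [hP2, hz, sub_zero]; exact div_neg_of_neg_of_pos hU (by linarith)
  have hr20 : 0 < r2 := by linarith [hr2.1]
  have hΦ2 : r2 ^ k * P r2 < 0 := mul_neg_of_pos_of_neg (by positivity) hP2'
  have hΦ1 : 0 < r1 ^ k * P r1 := by positivity
  have hm : ∀ x, z ≤ x → m x = 0 := fun x hx =>
    le_antisymm (by simpa [hz] using h.mle z x hz0 hx) (h.m0 x)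
  rcases le_total r1 r2 with h12 | h12
  · obtain ⟨s, hs, hs'⟩ := exists_hasDerivAt_eq_slope (fun r => r ^ k * P r)
      (fun r => r ^ k * (q r * m r)) h1 (by have := h.cP; fun_prop) (fun x _ => h.dΦ x)
    have h2 : 0 < s ^ k * (q s * m s) := by
      rw [hs', h.P0, mul_zero, sub_zero, sub_zero]; positivity
    have h3 : 0 < q s * m s := pos_of_mul_pos_left' h2 (pow_nonneg hs.1.le k)
    have h4 : 0 < q s := pos_of_mul_pos_right' h3 (h.m0 s)
    have h5 := le_of_deriv_nonneg h12 h.dΦ fun x hx => by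
      have := h.qmono s x hs.1.le (by linarith [hs.2, hx.1])
      have h6 : 0 < x := by linarith [hx.1]
      have := h.m0 x
      have : 0 < q x := by linarith
      positivity
    linarith
  · have h5 := le_of_deriv_nonpos h12 h.dΦ fun x hx => by
      rw [hm x (by linarith [hx.1, hr2.1])]; simp
    linarith
where
  pos_of_mul_pos_left' {x y : ℝ} (h : 0 < x * y) (hx : 0 ≤ x) : 0 < y := by
    by_contra hy
    push Not at hy
    nlinarith
  pos_of_mul_pos_right' {x y : ℝ} (h : 0 < x * y) (hy : 0 ≤ y) : 0 < x := by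
    by_contra hx
    push Not at hx
    nlinarith

lemma Comp.anti (h : Comp k a U P m q) (hP : ∀ r, 0 < r → P r ≤ 0) {x y : ℝ} (hx : 0 ≤ x)
    (hxy : x ≤ y) : U y ≤ U x :=
  le_of_deriv_nonpos hxy h.dU fun z hz => hP z (by linarith [hz.1])

lemma Comp.dP (h : Comp k a U P m q) {r : ℝ} (hr : 0 < r) :
    HasDerivAt P (q r * m r - k * P r / r) r := by
  have h1 := (h.dΦ r).div (hasDerivAt_pow k r) (pow_pos hr k).ne'
  have h2 : P =ᶠ[𝓝 r] (fun r => r ^ k * P r) / fun r => r ^ k := by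
    filter_upwards [lt_mem_nhds hr] with x hx
    have : x ^ k ≠ 0 := (pow_pos hx k).ne'
    simp only [Pi.div_apply]
    field_simp
  refine (h1.congr_of_eventuallyEq h2).congr_deriv ?_
  rcases k with _ | k
  · simp
  · simp only [add_tsub_cancel_right]
    field_simp
    ring

/-- energy argument: close to the equilibrium there is no overshooting -/
lemma Comp.no_over (h : Comp k a U P m q) (ha : 0 < a) {ε c : ℝ} (hε : ε < c * a ^ 2 / 2)
    (hq : ∀ r, 0 ≤ r → c * (a ^ 2 - m r ^ 2) - ε ≤ q r) {r0 : ℝ} (h0 : 0 < r0) : 0 ≤ U r0 := by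
  by_contra hU
  push Not at hU
  have hP : ∀ r, 0 < r → P r ≤ 0 := fun r hr => not_lt.1 fun hp => h.disj ha h0 hU hr hp
  obtain ⟨z, hz0, -, hz⟩ := h.exists_zero ha h0 hU
  have cU := h.cU
  have cP := h.cP
  have hd : ∀ x, 0 < x → HasDerivAt
      (fun x => P x ^ 2 / 2 + ε * U x ^ 2 / 2 - c * (a ^ 2 * U x ^ 2 / 2 - U x ^ 4 / 4))
      (P x * (q x * m x - k * P x / x) + (ε - c * (a ^ 2 - U x ^ 2)) * U x * P x) x := by
    intro x hx
    refine (((((h.dP hx).pow 2).div_const 2).add ((((h.dU x).pow 2).const_mul ε).div_const 2)).sub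
      ((((((h.dU x).pow 2).const_mul (a ^ 2)).div_const 2).sub
        (((h.dU x).pow 4).div_const 4)).const_mul c)).congr_deriv ?_
    push_cast
    ring
  have h1 := antitoneOn_of_deriv_nonpos (convex_Icc 0 z)
    (f := fun x => P x ^ 2 / 2 + ε * U x ^ 2 / 2 - c * (a ^ 2 * U x ^ 2 / 2 - U x ^ 4 / 4))
    (Continuous.continuousOn (by fun_prop))
    (fun x hx => by
      rw [interior_Icc] at hx
      exact (hd x hx.1).differentiableAt.differentiableWithinAt)
    (fun x hx => by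
      rw [interior_Icc] at hx
      rw [(hd x hx.1).deriv]
      have hU0 : 0 ≤ U x := hz ▸ h.anti hP hx.1.le hx.2.le
      have hm := h.meq x hx.1.le hU0 fun y hy hyx => h.anti hP hy hyx
      have h2 := hq x hx.1.le
      rw [hm] at h2 ⊢
      have h3 := hP x hx.1
      have h4 : 0 ≤ k * (P x) ^ 2 / x := by have := hx.1; positivity
      have h5 : U x * P x * (q x + (ε - c * (a ^ 2 - U x ^ 2))) ≤ 0 :=
        mul_nonpos_of_nonpos_of_nonneg (mul_nonpos_of_nonneg_of_nonpos hU0 h3) (by linarith)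
      have e : P x * (q x * U x - k * P x / x) + (ε - c * (a ^ 2 - U x ^ 2)) * U x * P x
          = U x * P x * (q x + (ε - c * (a ^ 2 - U x ^ 2))) - k * (P x) ^ 2 / x := by ring
      linarith)
    (left_mem_Icc.2 hz0) (right_mem_Icc.2 hz0) hz0
  simp only [hz, h.P0, h.U0] at h1
  have h2 : 0 < a ^ 2 := by positivity
  nlinarith [sq_nonneg (P z)]

lemma Comp.no_under (h : Comp k a U P m q) (hq : ∀ r, 0 ≤ r → q r ≤ 0) {r : ℝ} (hr : 0 < r) :
    P r ≤ 0 := by
  have h1 := le_of_deriv_nonpos hr.le h.dΦ fun x hx =>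
    mul_nonpos_of_nonneg_of_nonpos (pow_nonneg hx.1.le k)
      (mul_nonpos_of_nonpos_of_nonneg (hq x hx.1.le) (h.m0 x))
  simp only [h.P0, mul_zero] at h1
  by_contra hP
  push Not at hP
  have : 0 < r ^ k * P r := by positivity
  linarith

/-- neither overshooting nor undershooting -/
structure Good (U P : ℝ → ℝ) : Prop where
  nn : ∀ r, 0 < r → 0 ≤ U r
  dec : ∀ r, 0 < r → P r ≤ 0

lemma Comp.nn' (h : Comp k a U P m q) (ha : 0 < a) (g : Good U P) {r : ℝ} (hr : 0 ≤ r) :
    0 ≤ U r := by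
  rcases hr.eq_or_lt with rfl | hr
  · exact h.U0 ▸ ha.le
  · exact g.nn r hr

lemma Comp.m_eq (h : Comp k a U P m q) (ha : 0 < a) (g : Good U P) {r : ℝ} (hr : 0 ≤ r) :
    m r = U r :=
  h.meq r hr (h.nn' ha g hr) fun _ hx hxr => h.anti g.dec hx hxr

/-- for large initial values the solution with zero frequency is not good -/
lemma big_start (k : ℕ) {κ K M : ℝ} (hκ : 0 < κ) (hK : 0 < K) : ∃ a0 : ℝ, 0 < a0 ∧ ∀ a, a0 ≤ a →
    ∀ U P m q : ℝ → ℝ, Comp k a U P m q → Good U P → (∀ r, 0 ≤ r → -K ≤ q r ∧ q r ≤ 0) →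
      (∀ r, 0 ≤ r → M ≤ U r → q r ≤ -κ) → False := by
  obtain ⟨θ, hθ, H⟩ := no_super k hκ (show 0 < 1 / (1 + K) by positivity)
  refine ⟨1 + |M| / θ, by positivity, fun a ha U P m q h g hq hq' => ?_⟩
  have hMθ : 0 ≤ |M| / θ := by positivity
  have ha0 : 0 < a := by linarith
  have hUa : ∀ r, 0 ≤ r → U r ≤ a := fun r hr => h.U0 ▸ h.anti g.dec le_rfl hr
  refine H a U P _ ha0 h.dU h.dΦ h.P0 h.U0 (fun r hr => h.nn' ha0 g hr) g.dec ?_ ?_ ?_
  · have h1 : ∀ r, 0 < r → -(K * a * r) ≤ P r := by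
      intro r hr
      have h2 := le_of_deriv_nonneg (f := fun x => x ^ k * P x + K * a * r ^ k * x)
        (f' := fun x => x ^ k * (q x * m x) + K * a * r ^ k) hr.le
        (fun x => ((h.dΦ x).add ((hasDerivAt_id x).const_mul (K * a * r ^ k))).congr_deriv
          (by simp))
        (fun x hx => by
          rw [h.m_eq ha0 g hx.1.le]
          have h3 := hUa x hx.1.le
          have h4 := h.nn' ha0 g hx.1.le
          have h5 := (hq x hx.1.le).1
          have h6 : x ^ k ≤ r ^ k := pow_le_pow_left₀ hx.1.le hx.2.le k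
          have h7 : 0 ≤ x ^ k := pow_nonneg hx.1.le k
          have h8 : -(K * a) ≤ q x * U x := by nlinarith
          nlinarith [mul_le_mul_of_nonneg_left h8 h7,
            mul_le_mul_of_nonneg_left h6 (mul_pos hK ha0).le])
      simp only [h.P0, mul_zero, add_zero] at h2
      have h3 : 0 < r ^ k := pow_pos hr k
      by_contra hcon
      push Not at hcon
      nlinarith
    have hρ : 0 < 1 / (1 + K) := by positivity
    have h2 := le_of_deriv_nonneg (f := fun x => U x + K * a * x ^ 2 / 2)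
      (f' := fun x => P x + K * a * x) hρ.le
      (fun x => by
        refine ((h.dU x).add (((hasDerivAt_pow 2 x).const_mul (K * a)).div_const 2)).congr_deriv ?_
        push_cast; ring)
      (fun x hx => by linarith [h1 x hx.1])
    simp only [h.U0] at h2
    have h3 : K * (1 / (1 + K)) ^ 2 ≤ 1 := by
      rw [div_pow, one_pow, mul_one_div, div_le_one (by positivity)]; nlinarith
    nlinarith
  · intro r hr
    exact mul_nonpos_of_nonneg_of_nonpos (pow_nonneg hr.le k)
      (mul_nonpos_of_nonpos_of_nonneg (hq r hr.le).2 (h.m0 r))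
  · intro r hr hθa
    have h1 : M ≤ U r := by
      have h2 : |M| / θ ≤ a := by linarith
      rw [div_le_iff₀ hθ] at h2
      linarith [le_abs_self M]
    have h2 := hq' r hr.le h1
    rw [h.m_eq ha0 g hr.le]
    have h3 := mul_nonneg (pow_nonneg hr.le k) (h.nn' ha0 g hr.le)
    nlinarith

/-- a good component tends to zero -/
lemma Comp.small (h : Comp k a U P m q) (ha : 0 < a) (g : Good U P) (hq0 : q 0 < 0)
    (cq : Continuous q) {c : ℝ} (hc : 0 < c)
    (hq : ∀ x y, 0 ≤ x → x ≤ y → c * (U x ^ 2 - U y ^ 2) ≤ q y - q x)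
    {ε : ℝ} (hε : 0 < ε) : ∃ R, 0 < R ∧ U R < ε := by
  by_contra hcon
  push Not at hcon
  have hbdd : BddBelow (U '' Ici 0) := ⟨0, by rintro _ ⟨x, hx, rfl⟩; exact h.nn' ha g hx⟩
  have hne : (U '' Ici 0).Nonempty := ⟨_, 0, self_mem_Ici, rfl⟩
  set L := sInf (U '' Ici 0) with hL
  have hLU : ∀ r, 0 ≤ r → L ≤ U r := fun r hr => csInf_le hbdd ⟨r, hr, rfl⟩
  have hεL : ε ≤ L := le_csInf hne (by
    rintro _ ⟨x, hx, rfl⟩
    exact (hcon (x + 1) (by linarith [mem_Ici.1 hx])).trans (h.anti g.dec hx (by linarith)))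
  have hL0 : 0 < L := by linarith
  have hqn : ∀ r, 0 ≤ r → q r ≤ 0 := by
    intro r0 hr0
    by_contra hpos
    push Not at hpos
    set δ := (r0 + 1) ^ k * (q r0 * L) with hδ
    have hδ0 : 0 < δ := by positivity
    set T := r0 + 1 + (|(r0 + 1) ^ k * P (r0 + 1)| + 1) / δ with hT
    have hT1 : r0 + 1 ≤ T := le_add_of_nonneg_right (by positivity)
    have h1 := le_of_deriv_nonneg (f := fun x => x ^ k * P x - δ * x)
      (f' := fun x => x ^ k * (q x * m x) - δ) hT1
      (fun x => ((h.dΦ x).sub ((hasDerivAt_id x).const_mul δ)).congr_deriv (by simp))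
      (fun x hx => by
        have hx0 : 0 ≤ x := by linarith [hx.1]
        rw [h.m_eq ha g hx0, sub_nonneg, hδ]
        have := h.qmono r0 x hr0 (by linarith [hx.1])
        have := hLU x hx0
        have := hx.1.le
        have : 0 ≤ q x := by linarith
        gcongr)
    have h2 : T ^ k * P T ≤ 0 :=
      mul_nonpos_of_nonneg_of_nonpos (pow_nonneg (by linarith) k) (g.dec T (by linarith))
    have h3 : δ * T = δ * (r0 + 1) + (|(r0 + 1) ^ k * P (r0 + 1)| + 1) := by
      rw [hT]; field_simp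
    linarith [neg_abs_le ((r0 + 1) ^ k * P (r0 + 1))]
  have hq2 : ∀ x, 0 ≤ x → c * (U x ^ 2 - L ^ 2) ≤ -q x := by
    intro x hx
    have h1 : U x ^ 2 + q x / c ≤ L ^ 2 := by
      refine le_of_forall_pos_le_add fun η hη => ?_
      obtain ⟨_, ⟨y, hy, rfl⟩, hy'⟩ := exists_lt_of_csInf_lt hne
        (show L < L + min 1 (η / (2 * L + 1)) from lt_add_of_pos_right _ (by positivity))
      have h2 := hq x (max x y) hx (le_max_left _ _)
      have h3 := hqn (max x y) (hx.trans (le_max_left _ _))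
      have h4 := h.anti g.dec hy (le_max_right x y)
      have h5 := hLU (max x y) (hx.trans (le_max_left _ _))
      have h6 := min_le_left 1 (η / (2 * L + 1))
      have h7 : min 1 (η / (2 * L + 1)) * (2 * L + 1) ≤ η := by
        rw [← le_div_iff₀ (by positivity)]; exact min_le_right _ _
      have h8 : 0 < min 1 (η / (2 * L + 1)) := by positivity
      have h9 : U (max x y) ^ 2 ≤ (L + min 1 (η / (2 * L + 1))) ^ 2 :=
        pow_le_pow_left₀ (by linarith) (by linarith) 2
      have h10 : q x / c ≤ -(U x ^ 2 - U (max x y) ^ 2) := by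
        rw [div_le_iff₀ hc]; linarith
      nlinarith
    have h2 : q x / c ≤ L ^ 2 - U x ^ 2 := by linarith
    rw [div_le_iff₀ hc] at h2
    linarith
  have haL : L < a := by
    refine lt_of_le_of_ne (h.U0 ▸ hLU 0 le_rfl) fun e => ?_
    -- then `U` is constant on the half line, contradicting `q 0 < 0`
    have hU : ∀ r, 0 ≤ r → U r = a := fun r hr =>
      le_antisymm (h.U0 ▸ h.anti g.dec le_rfl hr) (e ▸ hLU r hr)
    have hP : ∀ r, 0 < r → P r = 0 := by
      intro r hr
      have h1 : U =ᶠ[𝓝 r] fun _ => a := by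
        filter_upwards [lt_mem_nhds hr] with x hx using hU x hx.le
      exact (h.dU r).unique ((hasDerivAt_const r a).congr_of_eventuallyEq h1)
    have hqz : ∀ r, 0 < r → q r = 0 := by
      intro r hr
      have h1 : (fun r => r ^ k * P r) =ᶠ[𝓝 r] fun _ => 0 := by
        filter_upwards [lt_mem_nhds hr] with x hx using by rw [hP x hx, mul_zero]
      have h2 := (h.dΦ r).unique ((hasDerivAt_const r (0 : ℝ)).congr_of_eventuallyEq h1)
      rw [h.m_eq ha g hr.le, hU r hr.le] at h2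
      simpa [hr.ne', ha.ne'] using h2
    have h1 : ∀ᶠ x in 𝓝 (0 : ℝ), q x < 0 := cq.continuousAt.eventually (gt_mem_nhds hq0)
    obtain ⟨ρ, h2, h3⟩ := ((h1.filter_mono nhdsWithin_le_nhds).and
      (self_mem_nhdsWithin (s := Ioi (0 : ℝ)))).exists
    exact h2.ne (hqz ρ h3)
  obtain ⟨ρ, hρ, hρ'⟩ : ∃ ρ, 0 < ρ ∧ (a - L) / 2 ≤ U ρ - L := by
    have h1 : ∀ᶠ x in 𝓝 (0 : ℝ), (a + L) / 2 < U x :=
      h.cU.continuousAt.eventually (lt_mem_nhds (by rw [h.U0]; linarith))
    obtain ⟨ρ, h2, h3⟩ := ((h1.filter_mono nhdsWithin_le_nhds).and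
      (self_mem_nhdsWithin (s := Ioi (0 : ℝ)))).exists
    exact ⟨ρ, h3, by linarith⟩
  obtain ⟨θ, -, H⟩ := no_super k (show 0 < c * L ^ 2 by positivity) hρ
  refine H (a - L) (fun r => U r - L) P _ (by linarith) (fun r => (h.dU r).sub_const L) h.dΦ h.P0
    (by rw [h.U0]) (fun r hr => sub_nonneg.2 (hLU r hr)) g.dec hρ' (fun r hr => ?_)
    (fun r hr _ => ?_)
  · exact mul_nonpos_of_nonneg_of_nonpos (pow_nonneg hr.le k)
      (mul_nonpos_of_nonpos_of_nonneg (hqn r hr.le) (h.m0 r))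
  · rw [h.m_eq ha g hr.le]
    have h1 := hq2 r hr.le
    have h2 := hLU r hr.le
    have h3 : q r * U r ≤ -(c * L ^ 2 * (U r - L)) := by
      have h4 : c * (L * (U r - L)) ≤ c * (U r ^ 2 - L ^ 2) :=
        mul_le_mul_of_nonneg_left (by nlinarith) hc.le
      have h5 : q r ≤ -(c * (L * (U r - L))) := by linarith
      have h6 : 0 ≤ c * (L * (U r - L)) := by have := sub_nonneg.2 h2; positivity
      nlinarith
    have h4 := mul_le_mul_of_nonneg_left h3 (pow_nonneg hr.le k)
    nlinarith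

/-- a good component is positive -/
lemma Comp.pos (h : Comp k a U P m q) (ha : 0 < a) (g : Good U P) {r : ℝ} (hr : 0 ≤ r) :
    0 < U r := by
  refine lt_of_le_of_ne (h.nn' ha g hr) fun e => ?_
  have hr0 : 0 < r := lt_of_le_of_ne hr (by rintro rfl; linarith [h.U0])
  have hP : P r = 0 := by
    refine IsLocalMin.hasDerivAt_eq_zero ?_ (h.dU r)
    filter_upwards [lt_mem_nhds hr0] with x hx using e ▸ g.nn x hx
  obtain ⟨δ, hδ, hδr, hδU⟩ : ∃ δ, 0 < δ ∧ δ < r ∧ 0 < U δ := by
    have h1 : ∀ᶠ x in 𝓝 (0 : ℝ), 0 < U x :=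
      h.cU.continuousAt.eventually (lt_mem_nhds (by rw [h.U0]; exact ha))
    obtain ⟨ρ, ⟨h2, h3⟩, h4⟩ := (((h1.and (gt_mem_nhds hr0)).filter_mono nhdsWithin_le_nhds).and
      (self_mem_nhdsWithin (s := Ioi (0 : ℝ)))).exists
    exact ⟨ρ, h4, h3, h2⟩
  set C := 1 / δ ^ k + r ^ k * (|q 0| + |q r|) with hC
  have h1 := le_of_deriv_nonneg
    (f := fun x => Real.exp (C * x) * (U x ^ 2 + (x ^ k * P x) ^ 2))
    (f' := fun x => Real.exp (C * x) * (C * (U x ^ 2 + (x ^ k * P x) ^ 2) + 2 * U x * P x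
      + 2 * (x ^ k * P x) * (x ^ k * (q x * m x)))) hδr.le
    (fun x => ((((hasDerivAt_id x).const_mul C).exp).mul
      (((h.dU x).pow 2).add ((h.dΦ x).pow 2))).congr_deriv (by simp; ring))
    (fun x hx => by
      have hx0 : 0 < x := hδ.trans hx.1
      refine mul_nonneg (Real.exp_pos _).le ?_
      rw [h.m_eq ha g hx0.le]
      have hxk : 0 < x ^ k := pow_pos hx0 k
      have h2 : 1 / x ^ k ≤ 1 / δ ^ k :=
        one_div_le_one_div_of_le (pow_pos hδ k) (pow_le_pow_left₀ hδ.le hx.1.le k)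
      have h3 : x ^ k * |q x| ≤ r ^ k * (|q 0| + |q r|) := by
        refine mul_le_mul (pow_le_pow_left₀ hx0.le hx.2.le k) (abs_le.2 ⟨?_, ?_⟩) (abs_nonneg _)
          (by positivity)
        · linarith [h.qmono 0 x le_rfl hx0.le, neg_abs_le (q 0), abs_nonneg (q r)]
        · linarith [h.qmono x r hx0.le hx.2.le, le_abs_self (q r), abs_nonneg (q 0)]
      have h4 : |1 / x ^ k + x ^ k * q x| ≤ C := by
        refine (abs_add_le _ _).trans ?_
        rw [abs_mul, abs_of_pos hxk, abs_of_pos (one_div_pos.2 hxk)]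
        linarith
      have e2 : C * (U x ^ 2 + (x ^ k * P x) ^ 2) + 2 * U x * P x
          + 2 * (x ^ k * P x) * (x ^ k * (q x * U x)) = C * (U x ^ 2 + (x ^ k * P x) ^ 2)
          + (1 / x ^ k + x ^ k * q x) * (2 * U x * (x ^ k * P x)) := by
        field_simp; ring
      rw [e2]
      obtain ⟨h5, h6⟩ := abs_le.1 h4
      nlinarith [mul_nonneg (sub_nonneg.2 h5) (sq_nonneg (U x + x ^ k * P x)),
        mul_nonneg (sub_nonneg.2 h6) (sq_nonneg (U x - x ^ k * P x))])
  rw [← e, hP] at h1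
  have h2 : 0 < Real.exp (C * δ) * (U δ ^ 2 + (δ ^ k * P δ) ^ 2) := by positivity
  simp only [mul_zero, ne_eq, OfNat.ofNat_ne_zero, not_false_eq_true, zero_pow, add_zero] at h1
  linarith

/-- finite energy -/
lemma Comp.energy (h : Comp k a U P m q) (ha : 0 < a) (g : Good U P) {R μ : ℝ} (hR : 0 < R)
    (hμ : 0 < μ) (hq : μ ≤ q R) :
    IntegrableOn (fun r => r ^ k * U r ^ 2) (Ioi 0) ∧
      IntegrableOn (fun r => r ^ k * P r ^ 2) (Ioi 0) := by
  have cU := h.cU
  have cP := h.cP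
  have key : IntegrableOn (fun r => r ^ k * (P r ^ 2 + μ * U r ^ 2)) (Ioi R) := by
    refine integrableOn_Ioi_of_intervalIntegral_norm_bounded (l := atTop) (b := fun x => x)
      (-(R ^ k * P R * U R)) R (fun i => Continuous.integrableOn_Ioc (by fun_prop)) tendsto_id ?_
    filter_upwards [eventually_ge_atTop R] with T hT
    have h1 := le_of_deriv_nonneg
      (f := fun x => x ^ k * P x * U x - ∫ t in R..x, ‖t ^ k * (P t ^ 2 + μ * U t ^ 2)‖)
      (f' := fun x => x ^ k * (q x * m x) * U x + x ^ k * P x * P x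
        - ‖x ^ k * (P x ^ 2 + μ * U x ^ 2)‖) hT
      (fun x => ((h.dΦ x).mul (h.dU x)).sub
        ((show Continuous fun t => ‖t ^ k * (P t ^ 2 + μ * U t ^ 2)‖ by
          fun_prop).integral_hasStrictDerivAt R x).hasDerivAt)
      (fun x hx => by
        have hx0 : 0 ≤ x := by linarith [hx.1]
        rw [h.m_eq ha g hx0, Real.norm_eq_abs, abs_of_nonneg (by positivity)]
        have h2 := h.qmono R x hR.le hx.1.le
        have h3 : 0 ≤ x ^ k * U x ^ 2 * (q x - μ) := mul_nonneg (by positivity) (by linarith)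
        nlinarith)
    simp only [intervalIntegral.integral_same, sub_zero] at h1
    have h2 : T ^ k * P T * U T ≤ 0 := mul_nonpos_of_nonpos_of_nonneg
      (mul_nonpos_of_nonneg_of_nonpos (pow_nonneg (by linarith) k) (g.dec T (by linarith)))
      (g.nn T (by linarith))
    linarith
  have key2 : IntegrableOn (fun r => r ^ k * (P r ^ 2 + μ * U r ^ 2)) (Ioi 0) := by
    rw [← Ioc_union_Ioi_eq_Ioi hR.le]
    exact (Continuous.integrableOn_Ioc (by fun_prop)).union key
  constructor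
  · refine Integrable.mono' (key2.const_mul μ⁻¹) (Continuous.aestronglyMeasurable (by fun_prop)) ?_
    filter_upwards [ae_restrict_mem measurableSet_Ioi] with r hr
    have hr0 : 0 < r := hr
    rw [Real.norm_eq_abs, abs_of_nonneg (by positivity)]
    have e : μ⁻¹ * (r ^ k * (P r ^ 2 + μ * U r ^ 2)) = r ^ k * U r ^ 2 + μ⁻¹ * r ^ k * P r ^ 2 := by
      field_simp; ring
    rw [e]
    exact le_add_of_nonneg_right (by positivity)
  · refine Integrable.mono' key2 (Continuous.aestronglyMeasurable (by fun_prop)) ?_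
    filter_upwards [ae_restrict_mem measurableSet_Ioi] with r hr
    have hr0 : 0 < r := hr
    rw [Real.norm_eq_abs, abs_of_nonneg (by positivity), mul_add]
    exact le_add_of_nonneg_right (by positivity)

end Pool.Agent.MP_67db61_an
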